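import Pool.Agent.J4H93.HN.Stm

set_option autoImplicit false

namespace Pool.Agent.J4H75.HN

open Finset Pool.Agent.J4H93.HN

theorem Ph_symm (B : Finset ℕ) (q : ℝ) (P h : ℕ) (hB : ∀ n ∈ B, n ∣ P) (hn0 : ∀ n ∈ B, 0 < n)
    (hh : h ≤ P) : Ph B q ((P - h : ℕ) : ℤ) = (starRingEnd ℂ) (Ph B q (h : ℤ)) := by
  unfold Ph
  rw [map_prod]
  apply Finset.prod_congr rfl
  intro n hn
  obtain ⟨m, hm⟩ := hB n hn
  have hnc : (n : ℂ) ≠ 0 := by
    have := hn0 n hn
    exact_mod_cast this.ne'
  have e1 : (2 * Real.pi * Complex.I * (((P - h : ℕ) : ℤ) : ℂ) / n : ℂ) =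
      (m : ℂ) * (2 * Real.pi * Complex.I) + (starRingEnd ℂ) (2 * Real.pi * Complex.I * ((h : ℤ) : ℂ) / n) := by
    have e2 : ((((P - h : ℕ) : ℤ) : ℂ)) = (n : ℂ) * m - h := by
      have : ((P - h : ℕ) : ℤ) = (n : ℤ) * m - h := by
        rw [Nat.cast_sub hh, hm]
        push_cast
        rfl
      rw [this]
      push_cast
      rfl
    rw [e2]
    simp only [map_div₀, map_mul, Complex.conj_I, Complex.conj_ofReal, map_natCast, map_ofNat,
      Int.cast_natCast]
    field_simp
    ring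
  have e3 : Complex.exp ((m : ℂ) * (2 * Real.pi * Complex.I) +
      (starRingEnd ℂ) (2 * Real.pi * Complex.I * ((h : ℤ) : ℂ) / n)) =
      (starRingEnd ℂ) (Complex.exp (2 * Real.pi * Complex.I * ((h : ℤ) : ℂ) / n)) := by
    rw [Complex.exp_add, Complex.exp_nat_mul_two_pi_mul_I, one_mul, Complex.exp_conj]
  rw [e1, e3]
  simp

theorem small (x : ℝ) (hx : 100 ≤ x) : Real.exp (-x) ≤ 1 / 100 := by
  rw [Real.exp_neg]
  have h1 := Real.add_one_le_exp x
  rw [← one_div]
  exact one_div_le_one_div_of_le (by norm_num) (by linarith)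

theorem t_CIR : S_FOU → S_TAIL → S_MID → S_BAD → S_SML → S_CIR := by
  classical
  intro FOU TAIL MID BAD SML Y hY B P hP hdvd hsz hR2 hRY hPexp hbadc
  by_contra hno
  push Not at hno
  have hYn : 0 < Y := by omega
  have hYr : (10 : ℝ) ^ 6 ≤ (Y : ℝ) := by exact_mod_cast hY
  have hY1 : (1 : ℝ) ≤ (Y : ℝ) := by linarith [show (1 : ℝ) ≤ (10 : ℝ) ^ 6 by norm_num]
  have hn0 : ∀ n ∈ B, 0 < n := fun n hn => lt_of_lt_of_le (by positivity) (hsz n hn).1
  set q : ℝ := 1 / R B with hq
  set a : ℝ := Real.exp (-(Y : ℝ) ^ 2) with ha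
  set b : ℝ := Real.exp (-3 * (Y : ℝ) ^ 30) with hb
  have ha0 : 0 < a := Real.exp_pos _
  have hb0 : 0 < b := Real.exp_pos _
  have hPr : (0 : ℝ) < (P : ℝ) := by exact_mod_cast hP
  -- half
  have half : ∀ h : ℕ, 2 * h ≤ P → -(if h ≤ Y ^ 240 then a else 0) - b ≤ (Ph B q h).re := by
    intro h hh
    rcases le_or_gt h (Y ^ 181) with h1 | h1
    · have h2 := SML Y hY B hsz hR2 h h1
      split_ifs <;> linarith
    · rcases le_or_gt h (Y ^ 240) with h2 | h2
      · rw [if_pos h2]
        have h3 := MID Y hY B hsz hR2 h h1 h2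
        have h4 := (abs_le.1 ((Complex.abs_re_le_norm _).trans h3)).1
        linarith
      · rw [if_neg (not_le.2 h2)]
        have h3 := BAD Y hY B hsz hR2 hRY h h2 (hbadc h h2 hh)
        have h4 := (abs_le.1 ((Complex.abs_re_le_norm _).trans h3)).1
        linarith
  have full : ∀ h : ℕ, h ≤ P → -(if h ≤ Y ^ 240 then a else 0) - (if P - h ≤ Y ^ 240 then a else 0) - b
      ≤ (Ph B q h).re := by
    intro h hh
    rcases le_or_gt (2 * h) P with h1 | h1
    · have h2 := half h h1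
      have h3 : 0 ≤ (if P - h ≤ Y ^ 240 then a else 0) := by split_ifs <;> linarith
      linarith
    · have h2 := half (P - h) (by omega)
      rw [Ph_symm B q P h hdvd hn0 hh, Complex.conj_re] at h2
      have h3 : 0 ≤ (if h ≤ Y ^ 240 then a else 0) := by split_ifs <;> linarith
      linarith
  have zero : (Ph B q ((0 : ℕ) : ℤ)).re = 1 := by
    simp [Ph]
  -- the sum of the real parts
  have hfou := FOU B q P hP hdvd
  have hre := congrArg Complex.re hfou
  rw [Complex.re_sum] at hre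
  have hre2 : ((P : ℂ) * ((∑ S ∈ B.powerset.filter (fun S => ∃ m : ℕ, R S = m), wt B q S : ℝ) : ℂ)).re =
      (P : ℝ) * ∑ S ∈ B.powerset.filter (fun S => ∃ m : ℕ, R S = m), wt B q S := by
    rw [← Complex.ofReal_natCast, Complex.re_ofReal_mul, Complex.ofReal_re]
  rw [hre2] at hre
  -- lower bound
  have cnt1 : ∑ h ∈ Finset.range P, (if h ≤ Y ^ 240 then a else 0) ≤ ((Y : ℝ) ^ 240 + 1) * a := by
    rw [← Finset.sum_filter, Finset.sum_const, nsmul_eq_mul]
    apply mul_le_mul_of_nonneg_right _ ha0.le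
    have h1 : ((Finset.range P).filter (fun h => h ≤ Y ^ 240)) ⊆ Finset.range (Y ^ 240 + 1) := by
      intro h hh
      rw [Finset.mem_filter] at hh
      rw [Finset.mem_range]
      omega
    have h2 := Finset.card_le_card h1
    rw [Finset.card_range] at h2
    exact_mod_cast h2
  have cnt2 : ∑ h ∈ Finset.range P, (if P - h ≤ Y ^ 240 then a else 0) ≤ ((Y : ℝ) ^ 240 + 1) * a := by
    rw [← Finset.sum_filter, Finset.sum_const, nsmul_eq_mul]
    apply mul_le_mul_of_nonneg_right _ ha0.le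
    have h1 : ((Finset.range P).filter (fun h => P - h ≤ Y ^ 240)).card ≤
        (Finset.range (Y ^ 240 + 1)).card := by
      apply Finset.card_le_card_of_injOn (fun h => P - h)
      · intro h hh
        have hh' := Finset.mem_filter.1 hh
        simp only [Finset.coe_range, Set.mem_Iio]
        omega
      · intro x hx y hy hxy
        have hx' := Finset.mem_range.1 (Finset.mem_filter.1 hx).1
        have hy' := Finset.mem_range.1 (Finset.mem_filter.1 hy).1
        dsimp only at hxy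
        omega
    rw [Finset.card_range] at h1
    exact_mod_cast h1
  have low : 1 - 2 * (((Y : ℝ) ^ 240 + 1) * a) - P * b ≤ ∑ h ∈ Finset.range P, (Ph B q h).re := by
    have h1 : ∀ h ∈ Finset.range P, (if h = 0 then (1 : ℝ) else 0)
        - (if h ≤ Y ^ 240 then a else 0) - (if P - h ≤ Y ^ 240 then a else 0) - b ≤ (Ph B q h).re := by
      intro h hh
      by_cases h0 : h = 0
      · subst h0
        rw [zero, if_pos rfl]
        have h3 : 0 ≤ (if P - 0 ≤ Y ^ 240 then a else 0) := by split_ifs <;> linarith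
        have h4 : 0 ≤ (if 0 ≤ Y ^ 240 then a else 0) := by split_ifs <;> linarith
        linarith
      · rw [if_neg h0]
        have := full h (Finset.mem_range.1 hh).le
        linarith
    have h2 := Finset.sum_le_sum h1
    rw [Finset.sum_sub_distrib, Finset.sum_sub_distrib, Finset.sum_sub_distrib] at h2
    have h3 : ∑ h ∈ Finset.range P, (if h = 0 then (1 : ℝ) else 0) = 1 := by
      rw [Finset.sum_ite_eq' (Finset.range P) 0 (fun _ => (1 : ℝ))]
      rw [if_pos (Finset.mem_range.2 hP)]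
    have h4 : ∑ _h ∈ Finset.range P, b = P * b := by
      rw [Finset.sum_const, Finset.card_range, nsmul_eq_mul]
    rw [h3, h4] at h2
    linarith
  -- upper bound
  have hN : 0 < Y ^ 319 := by positivity
  obtain ⟨t1, t2⟩ := TAIL B (Y ^ 319) hN (fun n hn => (hsz n hn).1) hR2
  have hwt : ∀ S, 0 ≤ wt B q S := by
    intro S
    have h1 : q ≤ 1 / 2 := one_div_le_one_div_of_le (by norm_num) hR2
    have h0 : 0 ≤ q := by
      have : 0 < R B := by linarith
      positivity
    unfold wt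
    have : 0 ≤ 1 - q := by linarith
    positivity
  have up : ∑ S ∈ B.powerset.filter (fun S => ∃ m : ℕ, R S = m), wt B q S ≤
      Real.exp (-((Y ^ 319 : ℕ) : ℝ) / 4) + Real.exp (-((Y ^ 319 : ℕ) : ℝ)) := by
    have hsub : B.powerset.filter (fun S => ∃ m : ℕ, R S = m) ⊆
        (B.powerset.filter (fun S => 2 ≤ R S)) ∪ {∅} := by
      intro S hS
      rw [Finset.mem_filter] at hS
      obtain ⟨hS, m, hm⟩ := hS
      rw [Finset.mem_union]
      rcases Nat.lt_or_ge m 2 with h | h
      · right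
        rw [Finset.mem_singleton]
        have hm1 : m ≠ 1 := by
          rintro rfl
          exact hno S (Finset.mem_powerset.1 hS) (by rw [hm]; simp)
        have hm0 : m = 0 := by omega
        subst hm0
        by_contra hne
        obtain ⟨n, hn⟩ := Finset.nonempty_iff_ne_empty.2 hne
        have hnB := hn0 n (Finset.mem_powerset.1 hS hn)
        have h1 : (1 : ℝ) / n ≤ R S := by
          unfold R
          exact Finset.single_le_sum (f := fun n : ℕ => (1 : ℝ) / n) (fun i _ => by positivity) hn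
        have h2 : (0 : ℝ) < 1 / n := by
          have : (0 : ℝ) < n := by exact_mod_cast hnB
          positivity
        rw [hm] at h1
        push_cast at h1
        linarith
      · left
        rw [Finset.mem_filter]
        refine ⟨hS, ?_⟩
        rw [hm]
        exact_mod_cast h
    refine (Finset.sum_le_sum_of_subset_of_nonneg hsub (fun S _ _ => hwt S)).trans ?_
    have h1 := Finset.sum_union_inter (s₁ := B.powerset.filter (fun S => 2 ≤ R S)) (s₂ := {∅})
      (f := fun S => wt B q S)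
    have h2 : 0 ≤ ∑ S ∈ (B.powerset.filter (fun S => 2 ≤ R S)) ∩ {∅}, wt B q S :=
      Finset.sum_nonneg (fun S _ => hwt S)
    rw [Finset.sum_singleton] at h1
    linarith
  -- numbers
  have hYY : (Y : ℝ) ^ 240 + 1 ≤ 2 * Real.exp (240 * Y) := by
    have h1 : (Y : ℝ) ≤ Real.exp Y := by
      have := Real.add_one_le_exp (Y : ℝ)
      linarith
    have h2 : (Y : ℝ) ^ 240 ≤ Real.exp (240 * Y) := by
      calc (Y : ℝ) ^ 240 ≤ (Real.exp Y) ^ 240 := by gcongr
        _ = Real.exp (240 * Y) := by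
          rw [← Real.exp_nat_mul]
          norm_num
    have h3 : (1 : ℝ) ≤ Real.exp (240 * Y) := Real.one_le_exp (by positivity)
    linarith
  have n1 : ((Y : ℝ) ^ 240 + 1) * a ≤ 1 / 50 := by
    calc ((Y : ℝ) ^ 240 + 1) * a ≤ (2 * Real.exp (240 * Y)) * a :=
          mul_le_mul_of_nonneg_right hYY ha0.le
      _ = 2 * Real.exp (-((Y : ℝ) ^ 2 - 240 * Y)) := by
          rw [ha, mul_assoc, ← Real.exp_add]
          congr 2
          ring
      _ ≤ 2 * (1 / 100) := by
          apply mul_le_mul_of_nonneg_left (small _ _) (by norm_num)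
          nlinarith
      _ = 1 / 50 := by norm_num
  have hY30 : (Y : ℝ) ≤ (Y : ℝ) ^ 30 := le_self_pow₀ hY1 (by norm_num)
  have n2 : (P : ℝ) * b ≤ 1 / 100 := by
    calc (P : ℝ) * b ≤ Real.exp (2 * (Y : ℝ) ^ 30) * b := mul_le_mul_of_nonneg_right hPexp hb0.le
      _ = Real.exp (-((Y : ℝ) ^ 30)) := by
          rw [hb, ← Real.exp_add]
          congr 1
          ring
      _ ≤ 1 / 100 := small _ (by linarith [show (100 : ℝ) ≤ (10 : ℝ) ^ 6 by norm_num])
  have n3 : (P : ℝ) * (Real.exp (-((Y ^ 319 : ℕ) : ℝ) / 4) + Real.exp (-((Y ^ 319 : ℕ) : ℝ))) ≤ 1 / 50 := by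
    have hc : ((Y ^ 319 : ℕ) : ℝ) = (Y : ℝ) ^ 319 := by push_cast; rfl
    rw [hc]
    have hp : 0 < (Y : ℝ) ^ 319 := by positivity
    have h1 : Real.exp (-(Y : ℝ) ^ 319) ≤ Real.exp (-(Y : ℝ) ^ 319 / 4) := by
      apply Real.exp_le_exp.2
      linarith
    have hbig : 1000 * (Y : ℝ) ^ 30 ≤ (Y : ℝ) ^ 319 := by
      have e : (Y : ℝ) ^ 319 = (Y : ℝ) ^ 289 * (Y : ℝ) ^ 30 := by rw [← pow_add]
      rw [e]
      apply mul_le_mul_of_nonneg_right _ (by positivity)
      have : (Y : ℝ) ≤ (Y : ℝ) ^ 289 := le_self_pow₀ hY1 (by norm_num)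
      linarith [show (1000 : ℝ) ≤ (10 : ℝ) ^ 6 by norm_num]
    calc (P : ℝ) * (Real.exp (-(Y : ℝ) ^ 319 / 4) + Real.exp (-(Y : ℝ) ^ 319))
        ≤ Real.exp (2 * (Y : ℝ) ^ 30) * (Real.exp (-(Y : ℝ) ^ 319 / 4) + Real.exp (-(Y : ℝ) ^ 319 / 4)) := by
          gcongr
      _ = 2 * Real.exp (-((Y : ℝ) ^ 319 / 4 - 2 * (Y : ℝ) ^ 30)) := by
          rw [← two_mul, ← mul_assoc, mul_comm (Real.exp _) 2, mul_assoc, ← Real.exp_add]
          congr 2
          ring
      _ ≤ 2 * (1 / 100) := by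
          apply mul_le_mul_of_nonneg_left (small _ _) (by norm_num)
          linarith [show (100 : ℝ) ≤ (10 : ℝ) ^ 6 by norm_num]
      _ = 1 / 50 := by norm_num
  have u1 : (P : ℝ) * ∑ S ∈ B.powerset.filter (fun S => ∃ m : ℕ, R S = m), wt B q S ≤
      (P : ℝ) * (Real.exp (-((Y ^ 319 : ℕ) : ℝ) / 4) + Real.exp (-((Y ^ 319 : ℕ) : ℝ))) :=
    mul_le_mul_of_nonneg_left up hPr.le
  have hre' : ∑ h ∈ Finset.range P, (Ph B q h).re =
      (P : ℝ) * ∑ S ∈ B.powerset.filter (fun S => ∃ m : ℕ, R S = m), wt B q S := by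
    exact_mod_cast hre
  linarith

end Pool.Agent.J4H75.HN
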