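import Pool.Agent.J4H93.HN.Stm

set_option autoImplicit false

namespace Pool.Agent.J4H75.HN

open Finset Pool.Agent.J4H93.HN

theorem many (CR : S_CR) (r : ℕ) (c : ℕ → Fin r) :
    ∃ i : Fin r, ∀ t : ℕ, ∃ F : Finset ℕ, (∀ n ∈ F, 0 < n ∧ c n = i) ∧ R F = t := by
  classical
  choose S col hS hR using fun N0 => CR r c N0
  -- the bounds
  let N : ℕ → ℕ := fun j => Nat.rec 0 (fun _ M => max M ((S M).sup id)) j
  have hN0 : N 0 = 0 := rfl
  have hNs : ∀ j, N (j + 1) = max (N j) ((S (N j)).sup id) := fun j => rfl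
  have hmono : Monotone N := by
    apply monotone_nat_of_le_succ
    intro j
    rw [hNs]
    exact le_max_left _ _
  have hlow : ∀ j, ∀ n ∈ S (N j), N j < n := fun j n hn => (hS (N j) n hn).1
  have hup : ∀ j, ∀ n ∈ S (N j), n ≤ N (j + 1) := by
    intro j n hn
    rw [hNs]
    exact le_max_of_le_right (Finset.le_sup (f := id) hn)
  have hdis : ∀ i j, i ≠ j → Disjoint (S (N i)) (S (N j)) := by
    have key : ∀ i j, i < j → Disjoint (S (N i)) (S (N j)) := by
      intro i j hij
      rw [Finset.disjoint_left]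
      intro n h1 h2
      have h3 := hup i n h1
      have h4 := hlow j n h2
      have h5 := hmono (show i + 1 ≤ j from hij)
      omega
    intro i j hij
    rcases lt_or_gt_of_ne hij with h | h
    · exact key i j h
    · exact (key j i h).symm
  obtain ⟨i, hi⟩ := Finite.exists_infinite_fiber (fun j => col (N j))
  refine ⟨i, fun t => ?_⟩
  have hinf : (((fun j => col (N j)) ⁻¹' {i}) : Set ℕ).Infinite := Set.infinite_coe_iff.1 hi
  obtain ⟨J, hJ1, hJ2⟩ := hinf.exists_subset_card_eq t
  refine ⟨J.biUnion (fun j => S (N j)), ?_, ?_⟩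
  · intro n hn
    rw [Finset.mem_biUnion] at hn
    obtain ⟨j, hj, hn⟩ := hn
    have h1 := hS (N j) n hn
    have h2 : col (N j) = i := hJ1 hj
    exact ⟨by omega, by rw [h1.2, h2]⟩
  · have h1 : R (J.biUnion (fun j => S (N j))) = ∑ j ∈ J, R (S (N j)) := by
      unfold R
      exact Finset.sum_biUnion (fun a _ b _ hab => hdis a b hab)
    rw [h1]
    have h2 : ∀ j ∈ J, R (S (N j)) = 1 := fun j _ => hR (N j)
    rw [Finset.sum_congr rfl h2, Finset.sum_const, hJ2]
    simp

theorem t_HA : S_CR → S_HA := by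
  classical
  intro CR r c
  choose i hi using fun k : ℕ => many CR r (fun n => c (k.factorial * n))
  obtain ⟨y, hy⟩ := Finite.exists_infinite_fiber i
  refine ⟨y, fun q hq => ?_⟩
  have hinf : ((i ⁻¹' {y}) : Set ℕ).Infinite := Set.infinite_coe_iff.1 hy
  obtain ⟨k, hk1, hk2⟩ := hinf.exists_gt q.den
  have hky : i k = y := hk1
  have hdvd : q.den ∣ k.factorial := Nat.dvd_factorial q.pos hk2.le
  obtain ⟨e, he⟩ := hdvd
  have hfac : 0 < k.factorial := Nat.factorial_pos k
  have hnum : 0 < q.num := Rat.num_pos.2 hq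
  set t : ℕ := q.num.toNat * e with ht
  obtain ⟨F, hF1, hF2⟩ := hi k t
  have hval : (t : ℚ) / (k.factorial : ℚ) = q := by
    have h1 : ((q.num.toNat : ℕ) : ℚ) = (q.num : ℚ) := by
      have : ((q.num.toNat : ℕ) : ℤ) = q.num := Int.toNat_of_nonneg hnum.le
      exact_mod_cast congrArg (fun z : ℤ => (z : ℚ)) this
    have he0 : (e : ℚ) ≠ 0 := by
      intro h
      have : e = 0 := by exact_mod_cast h
      rw [this] at he
      omega
    have hd0 : (q.den : ℚ) ≠ 0 := by exact_mod_cast q.pos.ne'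
    rw [ht, he]
    push_cast
    rw [h1]
    have h2 : (q.num : ℚ) * e / (q.den * e) = q.num / q.den := by
      field_simp
    rw [h2]
    exact Rat.num_div_den q
  have hsum : ∑ a ∈ F.image (fun n => k.factorial * n), (1 : ℚ) / a = q := by
    rw [Finset.sum_image (fun a _ b _ hab => Nat.eq_of_mul_eq_mul_left hfac hab)]
    have h1 : (∑ n ∈ F, (1 : ℚ) / n) = t := by
      have h2 : ((∑ n ∈ F, (1 : ℚ) / n : ℚ) : ℝ) = ((t : ℚ) : ℝ) := by
        push_cast
        exact hF2
      exact_mod_cast h2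
    have h3 : ∑ n ∈ F, (1 : ℚ) / ((k.factorial * n : ℕ) : ℚ) =
        (1 / (k.factorial : ℚ)) * ∑ n ∈ F, (1 : ℚ) / n := by
      rw [Finset.mul_sum]
      apply Finset.sum_congr rfl
      intro n _
      push_cast
      rw [one_div_mul_one_div]
    rw [h3, h1, one_div_mul_eq_div]
    exact hval
  refine ⟨F.image (fun n => k.factorial * n), ?_, ?_, hsum⟩
  · by_contra hne
    rw [Finset.not_nonempty_iff_eq_empty] at hne
    rw [hne, Finset.sum_empty] at hsum
    rw [← hsum] at hq
    exact lt_irrefl _ hq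
  · intro a ha
    rw [Finset.mem_image] at ha
    obtain ⟨n, hn, rfl⟩ := ha
    have h1 := hF1 n hn
    refine ⟨Nat.mul_pos hfac h1.1, ?_⟩
    rw [← hky]
    exact h1.2

end Pool.Agent.J4H75.HN
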