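import Pool.Agent.J4H93.HN.Stm

set_option autoImplicit false

namespace Pool.Agent.J4H75.HN

open Finset Pool.Agent.J4H93.HN

/-- bound of the product by the sum of the exponents -/
theorem Ph_le (FAC : S_FAC) (B : Finset ℕ) (q : ℝ) (h : ℕ) (hq0 : 0 ≤ q) (hq : q ≤ 1 / 2)
    (d : ℕ → ℝ) (hd0 : ∀ n ∈ B, 0 ≤ d n) (hd : ∀ n ∈ B, ∀ m : ℤ, d n ≤ |(h : ℝ) / n - m|) :
    ‖Ph B q h‖ ≤ Real.exp (-(∑ n ∈ B, 4 * q * d n ^ 2)) := by
  unfold Ph
  rw [norm_prod, ← Finset.sum_neg_distrib, Real.exp_sum]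
  apply Finset.prod_le_prod
  · intro n _
    exact norm_nonneg _
  · intro n hn
    have h1 := FAC q ((h : ℝ) / n) (d n) hq0 hq (hd0 n hn) (hd n hn)
    have h2 : (2 * Real.pi * Complex.I * (((h : ℕ) : ℤ) : ℂ) / n : ℂ) =
        2 * Real.pi * Complex.I * (((h : ℝ) / n : ℝ) : ℂ) := by
      push_cast
      ring
    rw [h2]
    exact h1

theorem t_MID : S_FAC → S_MID := by
  intro FAC Y hY B hB hR h hh1 hh2
  have hRpos : 0 < R B := by linarith
  have hY0 : (0 : ℝ) < (Y : ℝ) := by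
    have : 0 < Y := by omega
    exact_mod_cast this
  have hq0 : (0 : ℝ) ≤ 1 / R B := by positivity
  have hq : 1 / R B ≤ 1 / 2 := one_div_le_one_div_of_le (by norm_num) hR
  have hnpos : ∀ n ∈ B, (0 : ℝ) < (n : ℝ) := by
    intro n hn
    have h1 := (hB n hn).1
    have h2 : 0 < Y ^ 319 := by positivity
    have h3 : 0 < n := lt_of_lt_of_le h2 h1
    exact_mod_cast h3
  have hhalf : ∀ n ∈ B, (h : ℝ) / n ≤ 1 / 2 := by
    intro n hn
    rw [div_le_iff₀ (hnpos n hn)]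
    have h1 : ((Y ^ 319 : ℕ) : ℝ) ≤ (n : ℝ) := by exact_mod_cast (hB n hn).1
    have h2 : (h : ℝ) ≤ ((Y ^ 240 : ℕ) : ℝ) := by exact_mod_cast hh2
    have h3 : 2 * Y ^ 240 ≤ Y ^ 319 := by
      have : Y ^ 319 = Y ^ 79 * Y ^ 240 := by rw [← pow_add]
      rw [this]
      apply Nat.mul_le_mul_right
      calc 2 ≤ Y := by omega
        _ = Y ^ 1 := (pow_one Y).symm
        _ ≤ Y ^ 79 := Nat.pow_le_pow_right (by omega) (by norm_num)
    have h4 : (2 : ℝ) * ((Y ^ 240 : ℕ) : ℝ) ≤ ((Y ^ 319 : ℕ) : ℝ) := by exact_mod_cast h3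
    linarith
  have h1 := Ph_le FAC B (1 / R B) h hq0 hq (fun n => (h : ℝ) / n)
    (fun n hn => by have := hnpos n hn; positivity) (by
      intro n hn m
      have hx := hhalf n hn
      have hx0 : (0 : ℝ) ≤ (h : ℝ) / n := by have := hnpos n hn; positivity
      rcases le_or_gt m 0 with hm | hm
      · have hm' : (m : ℝ) ≤ 0 := by exact_mod_cast hm
        rw [abs_of_nonneg (by linarith)]
        linarith
      · have hm' : (1 : ℝ) ≤ (m : ℝ) := by exact_mod_cast hm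
        rw [abs_of_nonpos (by linarith)]
        linarith)
  refine h1.trans ?_
  apply Real.exp_le_exp.2
  rw [neg_le_neg_iff]
  have key : ∀ n ∈ B, (4 * (1 / R B) * (Y : ℝ) ^ 2) * (1 / (n : ℝ)) ≤
      4 * (1 / R B) * ((h : ℝ) / n) ^ 2 := by
    intro n hn
    have hn0 := hnpos n hn
    have h2 : ((n : ℕ) : ℝ) ≤ (Y : ℝ) ^ 360 := by exact_mod_cast (hB n hn).2
    have h3 : (Y : ℝ) ^ 181 ≤ (h : ℝ) := by exact_mod_cast hh1.le
    have h4 : (Y : ℝ) ^ 362 ≤ (h : ℝ) ^ 2 := by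
      calc (Y : ℝ) ^ 362 = ((Y : ℝ) ^ 181) ^ 2 := by rw [← pow_mul]
        _ ≤ (h : ℝ) ^ 2 := by gcongr
    have h5 : (Y : ℝ) ^ 2 * n ≤ (h : ℝ) ^ 2 := by
      calc (Y : ℝ) ^ 2 * n ≤ (Y : ℝ) ^ 2 * (Y : ℝ) ^ 360 := by gcongr
        _ = (Y : ℝ) ^ 362 := by rw [← pow_add]
        _ ≤ _ := h4
    have h6 : (Y : ℝ) ^ 2 * (1 / (n : ℝ)) ≤ ((h : ℝ) / n) ^ 2 := by
      rw [div_pow, mul_one_div, div_le_div_iff₀ hn0 (by positivity)]
      nlinarith
    have h7 : (0 : ℝ) ≤ 4 * (1 / R B) := by positivity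
    calc (4 * (1 / R B) * (Y : ℝ) ^ 2) * (1 / (n : ℝ))
        = 4 * (1 / R B) * ((Y : ℝ) ^ 2 * (1 / (n : ℝ))) := by ring
      _ ≤ _ := mul_le_mul_of_nonneg_left h6 h7
  have h2 := Finset.sum_le_sum key
  rw [← Finset.mul_sum] at h2
  have h3 : (∑ n ∈ B, (1 : ℝ) / n) = R B := rfl
  rw [h3] at h2
  have h4 : 4 * (1 / R B) * (Y : ℝ) ^ 2 * R B = 4 * (Y : ℝ) ^ 2 := by
    field_simp
  rw [h4] at h2
  nlinarith [sq_nonneg (Y : ℝ)]

theorem t_BAD : S_FAC → S_BAD := by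
  intro FAC Y hY B hB hR hRY h hh hbad
  classical
  have hRpos : 0 < R B := by linarith
  have hYn : 0 < Y := by omega
  have hY0 : (0 : ℝ) < (Y : ℝ) := by exact_mod_cast hYn
  have hq0 : (0 : ℝ) ≤ 1 / R B := by positivity
  have hq : 1 / R B ≤ 1 / 2 := one_div_le_one_div_of_le (by norm_num) hR
  have hqY : 1 / (Y : ℝ) ≤ 1 / R B := one_div_le_one_div_of_le hRpos hRY
  have hnpos : ∀ n ∈ B, (0 : ℝ) < (n : ℝ) := by
    intro n hn
    have h1 := (hB n hn).1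
    have h2 : 0 < Y ^ 319 := by positivity
    have h3 : 0 < n := lt_of_lt_of_le h2 h1
    exact_mod_cast h3
  have hsub : Bad B Y h ⊆ B := Finset.filter_subset _ _
  have h1 := Ph_le FAC B (1 / R B) h hq0 hq
    (fun n => if n ∈ Bad B Y h then (Y : ℝ) ^ 240 / n else 0)
    (fun n hn => by
      have := hnpos n hn
      split_ifs
      · positivity
      · exact le_refl _) (by
      intro n hn m
      have hn0 := hnpos n hn
      split_ifs with hb
      · have hb2 := (Finset.mem_filter.1 hb).2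
        have e1 : (h : ℝ) / n - m = ((h : ℝ) - m * n) / n := by
          field_simp
        rw [e1, abs_div, abs_of_pos hn0]
        apply div_le_div_of_nonneg_right _ hn0.le
        -- |h - m n| >= Y^240
        by_contra hcon
        push Not at hcon
        rw [abs_lt] at hcon
        have hcast : (((Y ^ 240 : ℕ) : ℤ) : ℝ) = (Y : ℝ) ^ 240 := by push_cast; rfl
        have c1 : -((Y ^ 240 : ℕ) : ℤ) < (h : ℤ) - m * (n : ℤ) := by
          have := hcon.1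
          rw [← hcast] at this
          exact_mod_cast this
        have c2 : (h : ℤ) - m * (n : ℤ) < ((Y ^ 240 : ℕ) : ℤ) := by
          have := hcon.2
          rw [← hcast] at this
          exact_mod_cast this
        have c3 : (0 : ℤ) ≤ m * (n : ℤ) := by
          have : ((Y ^ 240 : ℕ) : ℤ) < (h : ℤ) := by exact_mod_cast hh
          omega
        obtain ⟨x, hx⟩ := Int.eq_ofNat_of_zero_le c3
        have hxI : x ∈ II Y h := by
          rw [II, Finset.mem_Icc]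
          constructor
          · omega
          · omega
        apply hb2 x hxI
        have : (n : ℤ) ∣ (x : ℤ) := ⟨m, by rw [← hx]; ring⟩
        exact_mod_cast this
      · exact abs_nonneg _)
  refine h1.trans ?_
  apply Real.exp_le_exp.2
  have e3 : -3 * (Y : ℝ) ^ 30 = -(3 * (Y : ℝ) ^ 30) := by ring
  rw [e3, neg_le_neg_iff]
  have key : ∀ n ∈ Bad B Y h, 4 * (1 / (Y : ℝ)) * ((Y : ℝ) ^ 480 / (Y : ℝ) ^ 720) ≤
      4 * (1 / R B) * (if n ∈ Bad B Y h then (Y : ℝ) ^ 240 / n else 0) ^ 2 := by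
    intro n hn
    rw [if_pos hn]
    have hn0 := hnpos n (hsub hn)
    have h2 : ((n : ℕ) : ℝ) ≤ (Y : ℝ) ^ 360 := by exact_mod_cast (hB n (hsub hn)).2
    have h3 : (Y : ℝ) ^ 480 / (Y : ℝ) ^ 720 ≤ ((Y : ℝ) ^ 240 / n) ^ 2 := by
      rw [div_pow, ← pow_mul]
      norm_num
      apply div_le_div_of_nonneg_left (by positivity) (by positivity)
      calc (n : ℝ) ^ 2 ≤ ((Y : ℝ) ^ 360) ^ 2 := by gcongr
        _ = (Y : ℝ) ^ 720 := by rw [← pow_mul]
    have h4 : (0 : ℝ) ≤ (Y : ℝ) ^ 480 / (Y : ℝ) ^ 720 := by positivity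
    calc 4 * (1 / (Y : ℝ)) * ((Y : ℝ) ^ 480 / (Y : ℝ) ^ 720)
        ≤ 4 * (1 / R B) * ((Y : ℝ) ^ 480 / (Y : ℝ) ^ 720) := by gcongr
      _ ≤ 4 * (1 / R B) * ((Y : ℝ) ^ 240 / n) ^ 2 :=
          mul_le_mul_of_nonneg_left h3 (by positivity)
  have h2 := Finset.card_nsmul_le_sum _ _ _ key
  have h3 : ∑ n ∈ Bad B Y h,
      4 * (1 / R B) * (if n ∈ Bad B Y h then (Y : ℝ) ^ 240 / n else 0) ^ 2 ≤
      ∑ n ∈ B, 4 * (1 / R B) * (if n ∈ Bad B Y h then (Y : ℝ) ^ 240 / n else 0) ^ 2 :=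
    Finset.sum_le_sum_of_subset_of_nonneg hsub (fun n _ _ => by positivity)
  refine le_trans ?_ (h2.trans h3)
  rw [nsmul_eq_mul]
  have h5 : (Y : ℝ) ^ 271 ≤ ((Bad B Y h).card : ℝ) := by exact_mod_cast hbad
  calc 3 * (Y : ℝ) ^ 30 ≤ 4 * (Y : ℝ) ^ 30 := by nlinarith [pow_pos hY0 30]
    _ = (Y : ℝ) ^ 271 * (4 * (1 / (Y : ℝ)) * ((Y : ℝ) ^ 480 / (Y : ℝ) ^ 720)) := by
        have a1 : (Y : ℝ) ^ 720 = (Y : ℝ) ^ 480 * (Y : ℝ) ^ 240 := by rw [← pow_add]
        have a2 : (Y : ℝ) ^ 271 = (Y : ℝ) ^ 30 * (Y : ℝ) ^ 240 * Y := by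
          rw [← pow_add, ← pow_succ]
        rw [a1, a2]
        field_simp
    _ ≤ _ := by gcongr

theorem t_FAC : S_FAC := by
  intro q t d hq0 hq hd0 hd
  -- |sin (pi t)| >= 2 d
  have hs : 2 * d ≤ |Real.sin (Real.pi * t)| := by
    have h1 : |t - round t| ≤ 1 / 2 := abs_sub_round t
    have h2 := hd (round t)
    have hpi := Real.pi_pos
    have h3 : |Real.pi * (t - round t)| ≤ Real.pi / 2 := by
      rw [abs_mul, abs_of_pos hpi]
      nlinarith
    have h4 := Real.mul_abs_le_abs_sin h3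
    have h5 : 2 / Real.pi * |Real.pi * (t - round t)| = 2 * |t - round t| := by
      rw [abs_mul, abs_of_pos hpi]
      field_simp
    rw [h5] at h4
    have h6 : |Real.sin (Real.pi * (t - round t))| = |Real.sin (Real.pi * t)| := by
      have : Real.pi * (t - round t) = Real.pi * t - (round t : ℤ) * Real.pi := by ring
      rw [this, Real.sin_sub_int_mul_pi, abs_mul]
      have : |((-1 : ℝ) ^ (round t : ℤ))| = 1 := by
        rw [abs_zpow]
        simp
      rw [this, one_mul]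
    rw [h6] at h4
    linarith
  have hsq : 4 * d ^ 2 ≤ Real.sin (Real.pi * t) ^ 2 := by
    have h1 : (2 * d) ^ 2 ≤ |Real.sin (Real.pi * t)| ^ 2 := by gcongr
    rw [sq_abs] at h1
    nlinarith
  have hn : ‖1 - (q : ℂ) + q * Complex.exp (2 * Real.pi * Complex.I * t)‖ ^ 2 =
      1 - 4 * q * (1 - q) * Real.sin (Real.pi * t) ^ 2 := by
    have e1 : (1 - (q : ℂ) + q * Complex.exp (2 * Real.pi * Complex.I * t)) =
        ((1 - q + q * Real.cos (2 * Real.pi * t) : ℝ) : ℂ) +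
          ((q * Real.sin (2 * Real.pi * t) : ℝ) : ℂ) * Complex.I := by
      have e0 : (2 * Real.pi * Complex.I * t : ℂ) = ((2 * Real.pi * t : ℝ) : ℂ) * Complex.I := by
        push_cast
        ring
      rw [e0, Complex.exp_mul_I, ← Complex.ofReal_cos, ← Complex.ofReal_sin]
      push_cast
      ring
    have e2 : Real.cos (2 * Real.pi * t) = 1 - 2 * Real.sin (Real.pi * t) ^ 2 := by
      have : 2 * Real.pi * t = 2 * (Real.pi * t) := by ring
      rw [this, Real.cos_two_mul]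
      nlinarith [Real.sin_sq_add_cos_sq (Real.pi * t)]
    have e3 : Real.sin (2 * Real.pi * t) ^ 2 = 1 - Real.cos (2 * Real.pi * t) ^ 2 := by
      nlinarith [Real.sin_sq_add_cos_sq (2 * Real.pi * t)]
    rw [e1, Complex.sq_norm, Complex.normSq_add_mul_I]
    have e4 : (1 - q + q * Real.cos (2 * Real.pi * t)) ^ 2 +
        (q * Real.sin (2 * Real.pi * t)) ^ 2 =
        (1 - q) ^ 2 + 2 * q * (1 - q) * Real.cos (2 * Real.pi * t) + q ^ 2 * (Real.cos (2 * Real.pi * t) ^ 2 + Real.sin (2 * Real.pi * t) ^ 2) := by ring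
    rw [e4, e3, e2]
    ring
  have hb : ‖1 - (q : ℂ) + q * Complex.exp (2 * Real.pi * Complex.I * t)‖ ^ 2 ≤
      Real.exp (-(4 * q * d ^ 2)) ^ 2 := by
    rw [hn, ← Real.exp_nat_mul]
    have h1 : 1 - 4 * q * (1 - q) * Real.sin (Real.pi * t) ^ 2 ≤ 1 - 8 * q * d ^ 2 := by
      have h2 : q * d ^ 2 * 8 ≤ 4 * q * (1 - q) * (4 * d ^ 2) := by
        nlinarith [mul_nonneg hq0 (sq_nonneg d)]
      have h3 : 4 * q * (1 - q) * (4 * d ^ 2) ≤ 4 * q * (1 - q) * Real.sin (Real.pi * t) ^ 2 :=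
        mul_le_mul_of_nonneg_left hsq (by nlinarith)
      linarith
    have h2 := Real.add_one_le_exp (-(8 * q * d ^ 2))
    have h3 : ((2 : ℕ) : ℝ) * -(4 * q * d ^ 2) = -(8 * q * d ^ 2) := by push_cast; ring
    rw [h3]
    linarith
  exact le_of_sq_le_sq hb (Real.exp_pos _).le

end Pool.Agent.J4H75.HN
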