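import Pool.Agent.J4H93.HN.Stm

set_option autoImplicit false

namespace Pool.Agent.J4H75.HN

open Finset Pool.Agent.J4H93.HN

theorem R_nonneg (S : Finset ℕ) : 0 ≤ R S := by
  unfold R
  positivity

theorem t_TAIL : S_TAIL := by
  classical
  intro B N hN hB hR
  have hRpos : 0 < R B := by linarith
  have hNr : (0 : ℝ) < (N : ℝ) := by exact_mod_cast hN
  set q : ℝ := 1 / R B with hq
  have hq0 : 0 ≤ q := by positivity
  have hq1 : q ≤ 1 / 2 := one_div_le_one_div_of_le (by norm_num) hR
  have hqR : q * R B = 1 := by rw [hq]; field_simp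
  have hnpos : ∀ n ∈ B, (0 : ℝ) < (n : ℝ) := by
    intro n hn
    have : 0 < n := lt_of_lt_of_le hN (hB n hn)
    exact_mod_cast this
  have hcard : (N : ℝ) * R B ≤ B.card := by
    have h1 : ∀ n ∈ B, (N : ℝ) * ((1 : ℝ) / n) ≤ 1 := by
      intro n hn
      rw [mul_one_div, div_le_one (hnpos n hn)]
      exact_mod_cast hB n hn
    have h2 := Finset.sum_le_sum h1
    rw [← Finset.mul_sum] at h2
    simpa [R] using h2
  constructor
  · -- exponential moment
    have hprod : ∏ n ∈ B, (q * Real.exp ((N : ℝ) / n) + (1 - q)) =
        ∑ S ∈ B.powerset, wt B q S * Real.exp ((N : ℝ) * R S) := by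
      rw [Finset.prod_add]
      apply Finset.sum_congr rfl
      intro S hS
      rw [Finset.mem_powerset] at hS
      rw [Finset.prod_mul_distrib, Finset.prod_const, Finset.prod_const, ← Real.exp_sum,
        Finset.card_sdiff_of_subset hS]
      have : (∑ n ∈ S, (N : ℝ) / n) = (N : ℝ) * R S := by
        rw [R, Finset.mul_sum]
        apply Finset.sum_congr rfl
        intro n _
        ring
      rw [this, wt]
      ring
    have hle : ∏ n ∈ B, (q * Real.exp ((N : ℝ) / n) + (1 - q)) ≤
        Real.exp ((Real.exp 1 - 1) * N) := by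
      have h1 : ∏ n ∈ B, (q * Real.exp ((N : ℝ) / n) + (1 - q)) ≤
          ∏ n ∈ B, Real.exp (q * ((Real.exp 1 - 1) * (N / n))) := by
        apply Finset.prod_le_prod
        · intro n _
          have := Real.exp_pos ((N : ℝ) / n)
          have : 0 ≤ q * Real.exp ((N : ℝ) / n) := by positivity
          linarith
        · intro n hn
          have hn0 := hnpos n hn
          set t : ℝ := (N : ℝ) / n with ht
          have ht0 : 0 ≤ t := by positivity
          have ht1 : t ≤ 1 := by
            rw [ht, div_le_one hn0]
            exact_mod_cast hB n hn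
          have hconv : Real.exp t ≤ 1 + (Real.exp 1 - 1) * t := by
            have := convexOn_exp.2 (Set.mem_univ (0 : ℝ)) (Set.mem_univ (1 : ℝ))
              (show (0 : ℝ) ≤ 1 - t by linarith) ht0 (by ring)
            simp only [smul_eq_mul, mul_zero, mul_one, zero_add, Real.exp_zero] at this
            linarith
          have h3 : q * Real.exp t + (1 - q) ≤ q * ((Real.exp 1 - 1) * t) + 1 := by
            nlinarith
          exact h3.trans (Real.add_one_le_exp _)
      refine h1.trans ?_
      rw [← Real.exp_sum]
      apply Real.exp_le_exp.2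
      have h4 : (∑ n ∈ B, q * ((Real.exp 1 - 1) * ((N : ℝ) / n))) =
          (Real.exp 1 - 1) * N * (q * R B) := by
        rw [R, Finset.mul_sum, Finset.mul_sum]
        apply Finset.sum_congr rfl
        intro n _
        ring
      rw [h4, hqR, mul_one]
    have hwt : ∀ S, 0 ≤ wt B q S := by
      intro S
      unfold wt
      have : 0 ≤ 1 - q := by linarith
      positivity
    have h5 : (∑ S ∈ B.powerset.filter (fun S => 2 ≤ R S), wt B q S) * Real.exp ((N : ℝ) * 2) ≤
        ∑ S ∈ B.powerset, wt B q S * Real.exp ((N : ℝ) * R S) := by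
      rw [Finset.sum_mul]
      refine le_trans ?_ (Finset.sum_le_sum_of_subset_of_nonneg
        (Finset.filter_subset (fun S => 2 ≤ R S) _) (fun S _ _ => mul_nonneg (hwt S) (Real.exp_pos _).le))
      apply Finset.sum_le_sum
      intro S hS
      have hS2 := (Finset.mem_filter.1 hS).2
      apply mul_le_mul_of_nonneg_left _ (hwt S)
      apply Real.exp_le_exp.2
      nlinarith
    rw [← hprod] at h5
    have h6 := h5.trans hle
    have h7 : (∑ S ∈ B.powerset.filter (fun S => 2 ≤ R S), wt B q S) ≤
        Real.exp ((Real.exp 1 - 1) * N) / Real.exp ((N : ℝ) * 2) := by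
      rw [le_div_iff₀ (Real.exp_pos _)]
      exact h6
    refine h7.trans ?_
    rw [← Real.exp_sub]
    apply Real.exp_le_exp.2
    have he := Real.exp_one_lt_d9
    nlinarith
  · -- the empty set
    have h1 : wt B q ∅ = (1 - q) ^ B.card := by simp [wt]
    rw [h1]
    have h2 : (1 - q) ≤ Real.exp (-q) := by
      have := Real.add_one_le_exp (-q)
      linarith
    calc (1 - q) ^ B.card ≤ (Real.exp (-q)) ^ B.card := by
          apply pow_le_pow_left₀ _ h2
          linarith
      _ = Real.exp (-(q * B.card)) := by
          rw [← Real.exp_nat_mul]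
          congr 1
          ring
      _ ≤ Real.exp (-(N : ℝ)) := by
          apply Real.exp_le_exp.2
          have h3 : (N : ℝ) = q * (N * R B) := by
            have : q * (N * R B) = N * (q * R B) := by ring
            rw [this, hqR, mul_one]
          have h4 : q * (N * R B) ≤ q * B.card := mul_le_mul_of_nonneg_left hcard hq0
          linarith

end Pool.Agent.J4H75.HN
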